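import Pool.Agent.L7h89.NH.Stm

/-!
Project NH, parts AFB, AFC: algebra in characteristic 3.
-/

set_option autoImplicit false

namespace Pool.Agent.L7h67.NH

open Pool.Agent.L7h89.NH

theorem s_AFC : S_AFC := by
  intro F _ h3 A c D h be ge bet gam hE hb
  have h0 := hE 0 (by simp)
  have h1 := hE 1 (by simp)
  have h2 := hE (-1) (by simp)
  linear_combination -(h0 + h1 + h2) + (h * D) * hb
    + (A * h ^ 2 + A * c ^ 2 + be * h * D + ge * D ^ 2) * h3

theorem s_AFB : S_AFB := by
  intro F _ h3 A A' c c' D h bet bet' gam gam' hc hc' hD hE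
  have m0 : (0 : F) ∈ ({0, 1, -1} : Set F) := by simp
  have m1 : (1 : F) ∈ ({0, 1, -1} : Set F) := by simp
  have m2 : (-1 : F) ∈ ({0, 1, -1} : Set F) := by simp
  have e00 := hE 0 m0 0 m0
  have e01 := hE 0 m0 1 m1
  have e02 := hE 0 m0 (-1) m2
  have e10 := hE 1 m1 0 m0
  have e11 := hE 1 m1 1 m1
  have e12 := hE 1 m1 (-1) m2
  have e20 := hE (-1) m2 0 m0
  have e21 := hE (-1) m2 1 m1
  have e22 := hE (-1) m2 (-1) m2
  -- sum of del E(eps, del)
  have k1 : bet 0 + bet 1 + bet (-1) = 0 := by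
    have h2 : c' * D * 2 * (bet 0 + bet 1 + bet (-1)) = 0 := by
      linear_combination (e01 + e11 + e21) - (e02 + e12 + e22)
        - (A + A') * (4 * h * c') * h3
        - ((bet' 1 - bet' (-1)) * h * D + (bet' 1 + bet' (-1)) * c' * D
            + (gam' 1 - gam' (-1)) * D ^ 2) * h3
    have h22 : (2 : F) ≠ 0 := by
      intro h2'
      have : (1 : F) = 0 := by linear_combination h3 - h2'
      exact one_ne_zero this
    have h4 : c' * D * 2 ≠ 0 := mul_ne_zero (mul_ne_zero hc' hD) h22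
    exact (mul_eq_zero.1 h2).resolve_left h4
  refine ⟨k1, ?_, ?_⟩
  · linear_combination e11 - e12 - e21 + e22
      + ((A + A') * 3 * c * c' + D * (c' * (bet (-1) - bet 1) - c * (bet' (-1) - bet' 1))) * h3
  · linear_combination -(e00 + e10 + e20) + (h * D) * k1
      + ((A + A') * h ^ 2 + (A + A') * c ^ 2 + bet' 0 * h * D + gam' 0 * D ^ 2) * h3

end Pool.Agent.L7h67.NH
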