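import Pool.Agent.L7h89.NH.Stm

/-!
Project NH, parts CCC and CCD: all lines with at least three points have exactly three points and
pass through a point R outside S.
-/

set_option autoImplicit false

namespace Pool.Agent.L7h67.NH

open Pool.Agent.L7h89.NH
open scoped LinearAlgebra.Projectivization Matrix Classical

variable {F : Type} [Field F] [Fintype F]

theorem key (hB : S_BAS) (hT : S_TOT) (S : Finset (Pt F)) (R M : Pt F) (P0 : Multiset (Pt F))
    (T : Pt F → Multiset (Pt F)) (n : ℕ) (hS : S.card = Fintype.card F + 1) (hR : R ∉ S)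
    (hbR : ∀ l ∈ bad S, On R l) (hb3 : ∀ l ∈ bad S, deg S l = 3) (hM : M ∈ bad S)
    (h0 : ∀ p ∈ P0, On p M) (hc : P0.card = 3) (hr : 4 ≤ P0.count R + n)
    (hTc : ∀ l ∈ (bad S).erase M, (T l).card = n ∧ ∀ p ∈ T l, p ∈ meet S l)
    (hq : 3 + ((bad S).erase M).card * n + 4 ≤ Fintype.card F) :
    ∑ x ∈ meet S M, (P0.map (fun p => lam M x p)).prod
      / (∏ y ∈ (meet S M).erase x, lam M x y) ^ 3 = 0 := by
  obtain ⟨-, hL, -, -, -, -, -⟩ := hB F
  set U : Multiset (Pt F) := ∑ l ∈ (bad S).erase M, T l with hU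
  have hUM : ∀ p ∈ U, ¬ On p M := by
    intro p hp hpM
    obtain ⟨l, hl, hpl⟩ := Multiset.mem_sum.1 hp
    have hl' := Finset.mem_erase.1 hl
    have h1 := (hTc l hl).2 p hpl
    have h2 := Finset.mem_filter.1 h1
    have hpR : p ≠ R := by
      rintro rfl
      exact hR h2.1
    obtain ⟨m, -, -, hm⟩ := hL p R hpR
    exact hl'.1 ((hm l h2.2 (hbR l hl'.2)).trans (hm M hpM (hbR M hM)).symm)
  have hfM : (P0 + U).filter (fun p => On p M) = P0 := by
    rw [Multiset.filter_add, Multiset.filter_eq_self.2 h0, Multiset.filter_eq_nil.2 hUM, add_zero]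
  have hUc : U.card = ((bad S).erase M).card * n := by
    rw [hU, Multiset.card_sum, Finset.sum_congr rfl fun l hl => (hTc l hl).1, Finset.sum_const,
      smul_eq_mul]
  have h1 := hT F S (P0 + U) M hS (by rw [Multiset.card_add, hc, hUc]; omega)
    (by rw [hb3 M hM]) (by rw [psi, hfM, hc, hb3 M hM]) ?_
  · rw [hfM] at h1
    exact h1
  · intro l hl hd
    right
    have hlb : l ∈ bad S := by simpa [bad] using hd
    have hle : l ∈ (bad S).erase M := Finset.mem_erase.2 ⟨hl, hlb⟩
    rw [hb3 l hlb, psi, Multiset.filter_add, Multiset.card_add]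
    have h2 : P0.count R ≤ (P0.filter (fun p => On p l)).card := by
      have h3 : (P0.filter (fun p => On p l)).count R = P0.count R :=
        Multiset.count_filter_of_pos (hbR l hlb)
      rw [← h3]
      exact Multiset.count_le_card _ _
    have h4 : n ≤ (U.filter (fun p => On p l)).card := by
      have h5 : T l ≤ U := Finset.single_le_sum (f := T) (fun _ _ => Multiset.zero_le _) hle
      have h6 : (T l).filter (fun p => On p l) = T l :=
        Multiset.filter_eq_self.2 fun p hp => (Finset.mem_filter.1 ((hTc l hle).2 p hp)).2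
      have h7 := Multiset.card_le_card (Multiset.filter_le_filter (fun p => On p l) h5)
      rw [h6, (hTc l hle).1] at h7
      exact h7
    omega

theorem bad_le_wt (S : Finset (Pt F)) : (bad S).card ≤ wt S := by
  unfold wt
  rw [Finset.card_eq_sum_ones]
  refine (Finset.sum_le_sum (g := fun l => (deg S l - 1).choose 2) fun l hl => ?_).trans
    (Finset.sum_le_sum_of_subset (Finset.subset_univ _))
  have h := (Finset.mem_filter.1 hl).2
  exact Nat.choose_pos (by omega)

theorem ex_pts (S : Finset (Pt F)) (n : ℕ) (hn : n ≤ 3) :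
    ∃ T : Pt F → Multiset (Pt F), ∀ l ∈ bad S, (T l).card = n ∧ ∀ p ∈ T l, p ∈ meet S l := by
  have h : ∀ l : Pt F, ∃ T : Multiset (Pt F), l ∈ bad S → T.card = n ∧ ∀ p ∈ T, p ∈ meet S l := by
    intro l
    by_cases hl : l ∈ bad S
    · have h1 : n ≤ (meet S l).card := hn.trans (Finset.mem_filter.1 hl).2
      obtain ⟨A, hA, hAc⟩ := Finset.exists_subset_card_eq h1
      exact ⟨A.val, fun _ => ⟨hAc, fun p hp => hA hp⟩⟩
    · exact ⟨0, fun h => absurd h hl⟩
  choose T hT using h
  exact ⟨T, fun l hl => hT l hl⟩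

theorem s_CCC (hB : S_BAS) (hL : S_LAM) (hT : S_TOT) : S_CCC := by
  intro F _ _ S R h3 hS hR hne hbR hb3 hw
  obtain ⟨M, hM⟩ := hne
  obtain ⟨T, hTT⟩ := ex_pts S 1 (by norm_num)
  have hbw := bad_le_wt S
  have hM1 : 1 ≤ (bad S).card := Finset.card_pos.2 ⟨M, hM⟩
  have hE : ((bad S).erase M).card = (bad S).card - 1 := Finset.card_erase_of_mem hM
  have hk := key hB hT S R M (Multiset.replicate 3 R) T 1 hS hR hbR hb3 hM
    (fun p hp => by rw [Multiset.eq_of_mem_replicate hp]; exact hbR M hM) (by simp) (by simp)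
    (fun l hl => hTT l (Finset.mem_of_mem_erase hl)) (by omega)
  obtain ⟨-, hanti, hz, hpl⟩ := hL F M
  obtain ⟨x, y, z, hxy, hxz, hyz, hm⟩ := Finset.card_eq_three.1 (hb3 M hM)
  have hmem : ∀ w ∈ meet S M, On w M ∧ w ≠ R := fun w hw => by
    have h := Finset.mem_filter.1 hw
    exact ⟨h.2, fun h' => hR (h' ▸ h.1)⟩
  obtain ⟨hx, hxR⟩ := hmem x (by rw [hm]; simp)
  obtain ⟨hy, hyR⟩ := hmem y (by rw [hm]; simp)
  obtain ⟨hz', hzR⟩ := hmem z (by rw [hm]; simp)
  have hRM := hbR M hM
  have hP := hpl x y z R hx hy hz' hRM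
  have e1 : (({x, y, z} : Finset (Pt F)).erase x) = {y, z} := by
    ext w; simp; grind
  have e2 : (({x, y, z} : Finset (Pt F)).erase y) = {x, z} := by
    ext w; simp; grind
  have e3 : (({x, y, z} : Finset (Pt F)).erase z) = {x, y} := by
    ext w; simp; grind
  rw [hm, Finset.sum_insert (by simp [hxy, hxz]), Finset.sum_insert (by simp [hyz]),
    Finset.sum_singleton, e1, e2, e3, Finset.prod_pair hyz, Finset.prod_pair hxz,
    Finset.prod_pair hxy] at hk
  simp only [Multiset.map_replicate, Multiset.prod_replicate] at hk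
  have n1 : lam M x y ≠ 0 := fun h => hxy ((hz x y hx hy).1 h)
  have n2 : lam M y z ≠ 0 := fun h => hyz ((hz y z hy hz').1 h)
  have n3 : lam M x z ≠ 0 := fun h => hxz ((hz x z hx hz').1 h)
  have m1 : lam M x R ≠ 0 := fun h => hxR ((hz x R hx hRM).1 h)
  have m2 : lam M y R ≠ 0 := fun h => hyR ((hz y R hy hRM).1 h)
  have m3 : lam M z R ≠ 0 := fun h => hzR ((hz z R hz' hRM).1 h)
  rw [hanti x y, hanti x z, hanti y z] at hk
  rw [hanti x z] at hP
  have hk' : (lam M y z * lam M x R) ^ 3 - (lam M x z * lam M y R) ^ 3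
      + (lam M x y * lam M z R) ^ 3 = 0 := by
    have h5 : (lam M x y * lam M x z) ≠ 0 := mul_ne_zero n1 n3
    have h6 : (-lam M x y * lam M y z) ≠ 0 := mul_ne_zero (neg_ne_zero.2 n1) n2
    have h7 : (-lam M x z * -lam M y z) ≠ 0 := mul_ne_zero (neg_ne_zero.2 n3) (neg_ne_zero.2 n2)
    rw [div_add_div _ _ (pow_ne_zero 3 h6) (pow_ne_zero 3 h7),
      div_add_div _ _ (pow_ne_zero 3 h5) (mul_ne_zero (pow_ne_zero 3 h6) (pow_ne_zero 3 h7)),
      div_eq_zero_iff] at hk
    have h8 := hk.resolve_right (mul_ne_zero (pow_ne_zero 3 h5)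
      (mul_ne_zero (pow_ne_zero 3 h6) (pow_ne_zero 3 h7)))
    have h9 : (lam M x y * lam M x z * lam M y z) ^ 3 ≠ 0 :=
      pow_ne_zero 3 (mul_ne_zero (mul_ne_zero n1 n3) n2)
    refine (mul_eq_zero.1 ?_).resolve_left h9
    linear_combination -h8
  have h10 : 3 * ((lam M y z * lam M x R) * (lam M x z * lam M y R) * (lam M x y * lam M z R))
      = 0 := by
    linear_combination -hk' + ((lam M y z * lam M x R) ^ 2 + (lam M x z * lam M y R) ^ 2
      + (lam M x y * lam M z R) ^ 2 + (lam M y z * lam M x R) * (lam M x z * lam M y R)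
      - (lam M y z * lam M x R) * (lam M x y * lam M z R)
      + (lam M x z * lam M y R) * (lam M x y * lam M z R)) * hP
  refine (mul_ne_zero h3 (mul_ne_zero (mul_ne_zero (mul_ne_zero n2 m1) (mul_ne_zero n3 m2))
    (mul_ne_zero n1 m3))) h10

theorem s_CCD (hB : S_BAS) (hL : S_LAM) (hT : S_TOT) : S_CCD := by
  intro F _ _ S R hS hR hbR hb3 hw M hM x hx y hy z hz' hxy hyz hxz
  obtain ⟨T, hTT⟩ := ex_pts S 2 (by norm_num)
  have hbw := bad_le_wt S
  have hM1 : 1 ≤ (bad S).card := Finset.card_pos.2 ⟨M, hM⟩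
  have hE : ((bad S).erase M).card = (bad S).card - 1 := Finset.card_erase_of_mem hM
  have hRM := hbR M hM
  have hmem : ∀ w ∈ meet S M, On w M ∧ w ≠ R := fun w hw => by
    have h := Finset.mem_filter.1 hw
    exact ⟨h.2, fun h' => hR (h' ▸ h.1)⟩
  obtain ⟨hxM, hxR⟩ := hmem x hx
  obtain ⟨hyM, hyR⟩ := hmem y hy
  obtain ⟨hzM, hzR⟩ := hmem z hz'
  have hm : meet S M = {x, y, z} := by
    symm
    refine Finset.eq_of_subset_of_card_le ?_ ?_
    · intro w hw
      simp only [Finset.mem_insert, Finset.mem_singleton] at hw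
      rcases hw with rfl | rfl | rfl <;> assumption
    · have h1 : (meet S M).card = 3 := hb3 M hM
      have h2 : ({x, y, z} : Finset (Pt F)).card = 3 := by
        rw [Finset.card_eq_three]
        exact ⟨x, y, z, hxy, hxz, hyz, rfl⟩
      omega
  have hk := key hB hT S R M (R ::ₘ R ::ₘ {x}) T 2 hS hR hbR hb3 hM
    (fun p hp => by
      simp only [Multiset.mem_cons, Multiset.mem_singleton] at hp
      rcases hp with rfl | rfl | rfl <;> assumption) (by simp) (by simp)
    (fun l hl => hTT l (Finset.mem_of_mem_erase hl)) (by omega)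
  obtain ⟨-, hanti, hz, hpl⟩ := hL F M
  have hP := hpl x y z R hxM hyM hzM hRM
  have e1 : (({x, y, z} : Finset (Pt F)).erase x) = {y, z} := by
    ext w; simp; grind
  have e2 : (({x, y, z} : Finset (Pt F)).erase y) = {x, z} := by
    ext w; simp; grind
  have e3 : (({x, y, z} : Finset (Pt F)).erase z) = {x, y} := by
    ext w; simp; grind
  rw [hm, Finset.sum_insert (by simp [hxy, hxz]), Finset.sum_insert (by simp [hyz]),
    Finset.sum_singleton, e1, e2, e3, Finset.prod_pair hyz, Finset.prod_pair hxz,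
    Finset.prod_pair hxy] at hk
  simp only [Multiset.map_cons, Multiset.map_singleton, Multiset.prod_cons,
    Multiset.prod_singleton] at hk
  have n0 : lam M x x = 0 := (hz x x hxM hxM).2 rfl
  have n1 : lam M x y ≠ 0 := fun h => hxy ((hz x y hxM hyM).1 h)
  have n2 : lam M y z ≠ 0 := fun h => hyz ((hz y z hyM hzM).1 h)
  have n3 : lam M x z ≠ 0 := fun h => hxz ((hz x z hxM hzM).1 h)
  have m1 : lam M x R ≠ 0 := fun h => hxR ((hz x R hxM hRM).1 h)
  rw [n0, hanti x y, hanti x z, hanti y z, mul_zero, mul_zero, zero_div, zero_add] at hk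
  rw [hanti x z] at hP ⊢
  have hk' : (lam M x z * lam M y R) ^ 2 - (lam M x y * lam M z R) ^ 2 = 0 := by
    have h6 : (-lam M x y * lam M y z) ≠ 0 := mul_ne_zero (neg_ne_zero.2 n1) n2
    have h7 : (-lam M x z * -lam M y z) ≠ 0 := mul_ne_zero (neg_ne_zero.2 n3) (neg_ne_zero.2 n2)
    rw [div_add_div _ _ (pow_ne_zero 3 h6) (pow_ne_zero 3 h7), div_eq_zero_iff] at hk
    have h8 := hk.resolve_right (mul_ne_zero (pow_ne_zero 3 h6) (pow_ne_zero 3 h7))
    have h9 : lam M x y * lam M x z * lam M y z ^ 3 ≠ 0 :=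
      mul_ne_zero (mul_ne_zero n1 n3) (pow_ne_zero 3 n2)
    refine (mul_eq_zero.1 ?_).resolve_left h9
    linear_combination -h8
  have h11 : lam M x z * lam M y R - lam M x y * lam M z R ≠ 0 := by
    intro h
    refine mul_ne_zero n2 m1 ?_
    linear_combination hP + h
  have h12 : (lam M x z * lam M y R - lam M x y * lam M z R)
      * (lam M x z * lam M y R + lam M x y * lam M z R) = 0 := by
    linear_combination hk'
  have h13 := (mul_eq_zero.1 h12).resolve_left h11
  linear_combination -h13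

end Pool.Agent.L7h67.NH
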