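import Pool.Agent.L7h89.NH.Stm

/-!
Project NH, part SHF: a permutation which moves every element to another class (Hall).
-/

set_option autoImplicit false

namespace Pool.Agent.L7h67.NH

open Pool.Agent.L7h89.NH
open scoped Classical

theorem s_SHF : S_SHF := by
  intro X Y _ kap hk
  classical
  have hall : ∀ s : Finset X,
      s.card ≤ (s.biUnion fun x => Finset.univ.filter fun y => kap y ≠ kap x).card := by
    intro s
    rcases s.eq_empty_or_nonempty with rfl | ⟨a, ha⟩
    · simp
    by_cases h : ∀ x ∈ s, kap x = kap a
    · have h1 : s ⊆ Finset.univ.filter fun x => kap x = kap a := fun x hx => by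
        simpa using h x hx
      have h2 : (Finset.univ.filter fun y => kap y ≠ kap a) ⊆
          (s.biUnion fun x => Finset.univ.filter fun y => kap y ≠ kap x) :=
        Finset.subset_biUnion_of_mem (fun x => Finset.univ.filter fun y => kap y ≠ kap x) ha
      have h3 := Finset.card_le_card h1
      have h4 := Finset.card_le_card h2
      have h5 := hk (kap a)
      have h6 : (Finset.univ.filter fun x => kap x = kap a).card
          + (Finset.univ.filter fun y => ¬ kap y = kap a).card = Fintype.card X := by
        rw [Finset.card_filter_add_card_filter_not]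
        rfl
      simp only [ne_eq] at h4 ⊢
      omega
    · push Not at h
      obtain ⟨b, hb, hab⟩ := h
      have h1 : (s.biUnion fun x => Finset.univ.filter fun y => kap y ≠ kap x) = Finset.univ := by
        ext y
        simp only [Finset.mem_biUnion, Finset.mem_filter, Finset.mem_univ, true_and, iff_true]
        by_cases hy : kap y = kap a
        · exact ⟨b, hb, fun h => hab (h.symm.trans hy)⟩
        · exact ⟨a, ha, hy⟩
      rw [h1]
      exact Finset.card_le_univ s
  obtain ⟨f, hf, hf2⟩ := (Finset.all_card_le_biUnion_card_iff_exists_injective
    (fun x => Finset.univ.filter fun y => kap y ≠ kap x)).1 hall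
  refine ⟨Equiv.ofBijective f ⟨hf, Finite.injective_iff_surjective.1 hf⟩, fun x => ?_⟩
  have h := (Finset.mem_filter.1 (hf2 x)).2
  exact h

end Pool.Agent.L7h67.NH
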