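import Pool.Agent.L7h89.NH.Stm

/-!
Project NH, part UNI: the identity for polynomials in one variable.
-/

set_option autoImplicit false

namespace Pool.Agent.L7h67.NH

open Polynomial
open Pool.Agent.L7h89.NH
open scoped Classical

theorem sum_eval_zero {F : Type} [Field F] [Fintype F] (G : F[X])
    (hG : G.natDegree < Fintype.card F - 1) : ∑ c : F, G.eval c = 0 := by
  have h1 : ∀ c : F, G.eval c = ∑ i ∈ Finset.range (G.natDegree + 1), G.coeff i * c ^ i :=
    fun c => eval_eq_sum_range c
  simp only [h1]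
  rw [Finset.sum_comm]
  refine Finset.sum_eq_zero fun i hi => ?_
  rw [← Finset.mul_sum, FiniteField.sum_pow_lt_card_sub_one, mul_zero]
  have := Finset.mem_range.1 hi
  omega

theorem prod_sub {F : Type} [Field F] [Fintype F] (c : F) :
    ∏ b ∈ Finset.univ.erase c, (c - b) = -1 := by
  classical
  have h1 : ∏ x : Fˣ, (x : F) = -1 := by
    have := congrArg (Units.val) (FiniteField.prod_univ_units_id_eq_neg_one (K := F))
    simpa [Units.coe_prod] using this
  rw [← h1]
  symm
  refine Finset.prod_bij (fun (x : Fˣ) _ => c - x) ?_ ?_ ?_ ?_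
  · intro x _
    simp
  · intro x _ y _ h
    exact Units.ext (sub_right_injective h)
  · intro b hb
    have hb' : b ≠ c := by simpa using hb
    exact ⟨Units.mk0 (c - b) (sub_ne_zero.2 hb'.symm), Finset.mem_univ _, by simp⟩
  · intro x _
    simp

theorem s_UNI : S_UNI := by
  intro F _ _ k H Q hk hH hQ
  have hpow : ∀ c, ((X - C c) ^ (3 * (k c - 1)) : F[X]) ≠ 0 :=
    fun c => pow_ne_zero _ (X_sub_C_ne_zero c)
  by_cases H0 : H = 0
  · refine Finset.sum_eq_zero fun c _ => ?_
    have h1 : Q c = 0 := by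
      have h2 := hQ c
      rw [H0] at h2
      exact (mul_eq_zero.1 h2.symm).resolve_left (hpow c)
    rw [h1]
    simp
  -- the product divides H
  have hdvd : (∏ c : F, (X - C c) ^ (3 * (k c - 1)) : F[X]) ∣ H := by
    refine Finset.prod_dvd_of_coprime ?_ fun c _ => ⟨Q c, hQ c⟩
    intro a _ b _ hab
    exact ((pairwise_coprime_X_sub_C Function.injective_id) hab).pow
  obtain ⟨H', hH'⟩ := hdvd
  have hH'0 : H' ≠ 0 := by
    rintro rfl
    exact H0 (by rw [hH', mul_zero])
  set Z : Finset F := Finset.univ.filter fun c => k c = 0 with hZ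
  set G : F[X] := H' * ∏ b ∈ Z, (X - C b) ^ 3 with hG
  -- sum of k c - 1
  have hs : ∑ c, (k c - 1) = Z.card := by
    have h1 : ∀ c ∈ (Finset.univ : Finset F), k c + (if k c = 0 then 1 else 0) = (k c - 1) + 1 := by
      intro c _
      split_ifs <;> omega
    have h2 := Finset.sum_congr rfl h1
    rw [Finset.sum_add_distrib, Finset.sum_add_distrib, hk, ← Finset.card_filter] at h2
    simp only [Finset.sum_const, Finset.card_univ, smul_eq_mul, mul_one] at h2
    have h3 : Z.card = (Finset.univ.filter fun c => k c = 0).card := rfl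
    omega
  have hdH : H.natDegree = 3 * Z.card + H'.natDegree := by
    rw [hH', natDegree_mul (Finset.prod_ne_zero_iff.2 fun c _ => hpow c) hH'0,
      natDegree_prod _ _ fun c _ => hpow c]
    simp only [natDegree_pow, natDegree_X_sub_C, mul_one]
    rw [← Finset.mul_sum, hs]
  have hdG : G.natDegree = H'.natDegree + 3 * Z.card := by
    rw [hG, natDegree_mul hH'0 (Finset.prod_ne_zero_iff.2 fun c _ =>
      pow_ne_zero _ (X_sub_C_ne_zero c)),
      natDegree_prod _ _ fun c _ => pow_ne_zero _ (X_sub_C_ne_zero c)]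
    simp only [natDegree_pow, natDegree_X_sub_C, mul_one, Finset.sum_const, smul_eq_mul]
    ring
  have hsum : ∑ c : F, G.eval c = 0 := sum_eval_zero G (by omega)
  have hGZ : ∀ c, k c = 0 → G.eval c = 0 := by
    intro c hc
    have hcZ : c ∈ Z := by simp [hZ, hc]
    rw [hG, eval_mul, eval_prod, Finset.prod_eq_zero hcZ (by simp), mul_zero]
  -- the values
  have hval : ∀ c, k c ≠ 0 →
      (Q c).eval c / (∏ b ∈ Finset.univ.erase c, (c - b) ^ k b) ^ 3 = - G.eval c := by
    intro c hc
    have hQc : Q c = H' * ∏ b ∈ Finset.univ.erase c, (X - C b) ^ (3 * (k b - 1)) := by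
      have h1 := hQ c
      rw [hH', ← Finset.mul_prod_erase Finset.univ _ (Finset.mem_univ c), mul_assoc] at h1
      rw [← mul_left_cancel₀ (hpow c) h1]
      ring
    have hne : (∏ b ∈ Finset.univ.erase c, (c - b) ^ k b) ≠ 0 :=
      Finset.prod_ne_zero_iff.2 fun b hb => pow_ne_zero _
        (sub_ne_zero.2 (Finset.ne_of_mem_erase hb).symm)
    rw [div_eq_iff (pow_ne_zero _ hne)]
    have hZc : c ∉ Z := by simp [hZ, hc]
    have h2 : ∏ b ∈ Z, (c - b) ^ 3
        = ∏ b ∈ Finset.univ.erase c, (if k b = 0 then (c - b) ^ 3 else 1) := by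
      rw [← Finset.prod_filter]
      refine Finset.prod_congr ?_ fun _ _ => rfl
      ext b
      simp only [hZ, Finset.mem_filter, Finset.mem_univ, true_and, Finset.mem_erase, and_true]
      refine ⟨fun h => ⟨?_, h⟩, fun h => h.2⟩
      rintro rfl
      exact hc h
    have h3 : (∏ b ∈ Z, (c - b) ^ 3) * (∏ b ∈ Finset.univ.erase c, (c - b) ^ k b) ^ 3
        = (∏ b ∈ Finset.univ.erase c, (c - b) ^ (3 * (k b - 1)))
          * (∏ b ∈ Finset.univ.erase c, (c - b)) ^ 3 := by
      rw [h2, ← Finset.prod_pow, ← Finset.prod_pow, ← Finset.prod_mul_distrib,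
        ← Finset.prod_mul_distrib]
      refine Finset.prod_congr rfl fun b _ => ?_
      split_ifs with h
      · simp [h]
      · rw [one_mul, ← pow_mul, ← pow_add]
        congr 1
        omega
    rw [hG, hQc, eval_mul, eval_mul, eval_prod, eval_prod]
    simp only [eval_pow, eval_sub, eval_X, eval_C]
    have h4 := prod_sub c
    calc H'.eval c * ∏ b ∈ Finset.univ.erase c, (c - b) ^ (3 * (k b - 1))
        = - (H'.eval c * ((∏ b ∈ Finset.univ.erase c, (c - b) ^ (3 * (k b - 1)))
          * (∏ b ∈ Finset.univ.erase c, (c - b)) ^ 3)) := by rw [h4]; ring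
      _ = _ := by rw [← h3]; ring
  rw [Finset.sum_congr rfl fun c hc => hval c (Finset.mem_filter.1 hc).2,
    Finset.sum_neg_distrib, neg_eq_zero, ← hsum]
  refine Finset.sum_subset (Finset.filter_subset _ _) fun c _ hc => ?_
  refine hGZ c ?_
  by_contra h
  exact hc (Finset.mem_filter.2 ⟨Finset.mem_univ _, h⟩)

end Pool.Agent.L7h67.NH
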